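import Pool.Agent.H98.SD.Defs
import Pool.Agent.H7.HD.All

/-!
# BCK. The easy half of the argument of Solovay (MP_e37c09_lc, helper29)
-/

open Ordinal Cardinal Order Set
open scoped ZFSet

universe u

namespace Pool.Agent.H29.SD

open _root_.HD

/-- `Jo j` is strictly increasing -/
theorem J_lt {δ η θ : Ordinal.{u}} {j : ZFSet.{u} → ZFSet.{u}} (h : Emb δ η θ j)
    {a b : Ordinal.{u}} (hab : a < b) (hb : b < η) : Jo j a < Jo j b :=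
  (h.lt_iff (hab.trans hb) hb).2 hab

/-- The image of a positive set is positive at the supremum `ρ` of the images of the ordinals
below `K`. The image set is given by an arbitrary predicate. -/
theorem bck' {δ η θ : Ordinal.{u}} {j : ZFSet.{u} → ZFSet.{u}} (hj : Emb δ η θ j)
    {M K : Cardinal.{u}} (hM : M.IsRegular) (hMδ : M.ord < δ) (hK : K.IsRegular) (hK0 : ℵ₀ < K)
    (hKη : K.ord < η) {ρ : Ordinal.{u}} (hρ1 : ∀ x < K.ord, Jo j x < ρ)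
    (hρ2 : ∀ y < ρ, ∃ x < K.ord, y < Jo j x) {X Y : Set Ordinal.{u}}
    (hXY : ∀ x < K.ord, x ∈ X → Jo j x ∈ Y) (hp : Pos M.ord K.ord X) : Pos M.ord ρ Y := by
  intro C hC
  have hex : ∀ ξ : Ordinal.{u}, ∃ ζ : Ordinal.{u}, ξ < K.ord →
      ζ < K.ord ∧ ∃ c ∈ C, Jo j ξ < c ∧ c < Jo j ζ := by
    intro ξ
    by_cases hξ : ξ < K.ord
    · obtain ⟨c, hc1, hc2, hc3⟩ := hC.unb _ (hρ1 ξ hξ)
      obtain ⟨ζ, hζ1, hζ2⟩ := hρ2 c hc1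
      exact ⟨ζ, fun _ => ⟨hζ1, c, hc3, hc2, hζ2⟩⟩
    · exact ⟨0, fun h => absurd h hξ⟩
  choose g hg using hex
  have hE := HD.All.ve K hK hK0 g fun x hx => (hg x hx).1
  obtain ⟨x, hx1, hx2, hx3, hx4⟩ := hp _ hE
  have hxη : x < η := hx1.trans hKη
  obtain ⟨h1, h2⟩ := HD.All.xe δ η θ j hj x hxη M hM hMδ hx4
  refine ⟨Jo j x, hρ1 x hx1, ?_, hXY x hx1 hx3, h2⟩
  refine hC.cls _ (hρ1 x hx1) ?_ ?_
  · have := J_lt hj hx2.1 hxη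
    rwa [hj.Jo_zero] at this
  · intro y hy
    obtain ⟨ξ, hξ1, hξ2⟩ := h1 y hy
    obtain ⟨h3, c, hc1, hc2, hc3⟩ := hg ξ (hξ1.trans hx1)
    exact ⟨c, hc3.trans (J_lt hj (hx2.2 ξ hξ1) hxη), hξ2.trans hc2, hc1⟩

/-- BCK. -/
theorem bck {δ η θ : Ordinal.{u}} {j : ZFSet.{u} → ZFSet.{u}} (hj : Emb δ η θ j)
    {M K : Cardinal.{u}} (hM : M.IsRegular) (hMδ : M.ord < δ) (hK : K.IsRegular) (hK0 : ℵ₀ < K)
    (hKη : K.ord < η) {f : ZFSet.{u}} (hf : f ∈ V_ η) {ρ : Ordinal.{u}}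
    (hρ1 : ∀ x < K.ord, Jo j x < ρ) (hρ2 : ∀ y < ρ, ∃ x < K.ord, y < Jo j x)
    {i0 : Ordinal.{u}} (hi0 : i0 < η) (hp : Pos M.ord K.ord (fib f i0)) :
    Pos M.ord ρ (fib (j f) (Jo j i0)) :=
  bck' hj hM hMδ hK hK0 hKη hρ1 hρ2
    (fun _ hx hxf => (hj.opair (hx.trans hKη) hi0 hf).1 hxf) hp

/-- `j` and sections of sets of triples -/
theorem tri {δ η θ : Ordinal.{u}} {j : ZFSet.{u} → ZFSet.{u}} (hj : Emb δ η θ j)
    {x F : ZFSet.{u}} (hx : x ∈ V_ η) (hF : F ∈ V_ η) {b i : Ordinal.{u}} (hb : b < η)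
    (hi : i < η) : ZFSet.pair x (ZFSet.pair b.toZFSet i.toZFSet) ∈ F ↔
      ZFSet.pair (j x) (ZFSet.pair (Jo j b).toZFSet (Jo j i).toZFSet) ∈ j F := by
  have h1 := hj.gd.pair (Gd.ord.2 hb) (Gd.ord.2 hi)
  rw [hj.mem (hj.gd.pair hx h1) hF, hj.pair hx h1, hj.pair (Gd.ord.2 hb) (Gd.ord.2 hi),
    hj.ord hb, hj.ord hi]

/-- `j` and sections of sets of quadruples -/
theorem quad {δ η θ : Ordinal.{u}} {j : ZFSet.{u} → ZFSet.{u}} (hj : Emb δ η θ j)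
    {x F : ZFSet.{u}} (hx : x ∈ V_ η) (hF : F ∈ V_ η) {n b i : Ordinal.{u}} (hn : n < η)
    (hb : b < η) (hi : i < η) :
    ZFSet.pair x (ZFSet.pair n.toZFSet (ZFSet.pair b.toZFSet i.toZFSet)) ∈ F ↔
      ZFSet.pair (j x) (ZFSet.pair (Jo j n).toZFSet
        (ZFSet.pair (Jo j b).toZFSet (Jo j i).toZFSet)) ∈ j F := by
  have h1 := hj.gd.pair (Gd.ord.2 hb) (Gd.ord.2 hi)
  have h2 := hj.gd.pair (Gd.ord.2 hn) h1
  rw [hj.mem (hj.gd.pair hx h2) hF, hj.pair hx h2, hj.pair (Gd.ord.2 hn) h1,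
    hj.pair (Gd.ord.2 hb) (Gd.ord.2 hi), hj.ord hn, hj.ord hb, hj.ord hi]

/-- BCK for a family of sets of ordinals with a parameter `x`. -/
theorem bck3 {δ η θ : Ordinal.{u}} {j : ZFSet.{u} → ZFSet.{u}} (hj : Emb δ η θ j)
    {M K : Cardinal.{u}} (hM : M.IsRegular) (hMδ : M.ord < δ) (hK : K.IsRegular) (hK0 : ℵ₀ < K)
    (hKη : K.ord < η) {x F : ZFSet.{u}} (hx : x ∈ V_ η) (hF : F ∈ V_ η) {ρ : Ordinal.{u}}
    (hρ1 : ∀ x < K.ord, Jo j x < ρ) (hρ2 : ∀ y < ρ, ∃ x < K.ord, y < Jo j x)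
    {i0 : Ordinal.{u}} (hi0 : i0 < η)
    (hp : Pos M.ord K.ord {b | ZFSet.pair x (ZFSet.pair b.toZFSet i0.toZFSet) ∈ F}) :
    Pos M.ord ρ {b | ZFSet.pair (j x) (ZFSet.pair b.toZFSet (Jo j i0).toZFSet) ∈ j F} :=
  bck' hj hM hMδ hK hK0 hKη hρ1 hρ2
    (fun _ hb hbF => (tri hj hx hF (hb.trans hKη) hi0).1 hbF) hp

/-- BCK for a sequence of families of sets of ordinals with a parameter `x`. -/
theorem bck4 {δ η θ : Ordinal.{u}} {j : ZFSet.{u} → ZFSet.{u}} (hj : Emb δ η θ j)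
    {M K : Cardinal.{u}} (hM : M.IsRegular) (hMδ : M.ord < δ) (hK : K.IsRegular) (hK0 : ℵ₀ < K)
    (hKη : K.ord < η) {x F : ZFSet.{u}} (hx : x ∈ V_ η) (hF : F ∈ V_ η) {ρ : Ordinal.{u}}
    (hρ1 : ∀ x < K.ord, Jo j x < ρ) (hρ2 : ∀ y < ρ, ∃ x < K.ord, y < Jo j x)
    {n i0 : Ordinal.{u}} (hn : n < η) (hi0 : i0 < η)
    (hp : Pos M.ord K.ord
      {b | ZFSet.pair x (ZFSet.pair n.toZFSet (ZFSet.pair b.toZFSet i0.toZFSet)) ∈ F}) :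
    Pos M.ord ρ {b | ZFSet.pair (j x) (ZFSet.pair (Jo j n).toZFSet
      (ZFSet.pair b.toZFSet (Jo j i0).toZFSet)) ∈ j F} :=
  bck' hj hM hMδ hK hK0 hKη hρ1 hρ2
    (fun _ hb hbF => (quad hj hx hF hn (hb.trans hKη) hi0).1 hbF) hp

end Pool.Agent.H29.SD
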