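import Pool.Agent.H98.SD.TargetsM
import Pool.Agent.H98.SD.Lib
import Pool.Agent.H99.SD.CDX

/-!
# Part of BDX: a definable countable cofinal set (MP_e37c09_lc, helper29)
-/

open Ordinal Cardinal Order Set
open scoped ZFSet

universe u

namespace Pool.Agent.H29.SD

open _root_.HD _root_.HD.SD
open _root_.HD.NF (w0)

/-- the elements of the set with code `w 2` below `w 3` whose index is less than `w 4` and is in
the set with code `w 1` -/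
def PD (en : Ordinal.{u} → ZFSet.{u}) (x : ZFSet.{u}) (w : ℕ → Ordinal.{u}) : Prop :=
  ∃ i, (i < w 4 ∧ i ∈ Sc en x (w 1)) ∧ nth {b | b ∈ Sc en x (w 2) ∧ b < w 3} i (w 0)

theorem dx_PD (hDXS : T_DXS.{u}) (hDXN : T_DXN.{u}) {en : Ordinal.{u} → ZFSet.{u}}
    (hen : EN en) : DX (PD en) := by
  refine DX.ex (S := fun i x w => (i < w 4 ∧ i ∈ Sc en x (w 1)) ∧
    nth {b | b ∈ Sc en x (w 2) ∧ b < w 3} i (w 0)) ?_
  refine ((DX.o (DO.lt 0 5)).and ?_).and ?_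
  · exact ((hDXS en hen).1.ren fun n => if n = 0 then 0 else 2).congr fun _ _ => Iff.rfl
  · refine (hDXN (fun x w => w 0 ∈ Sc en x (w 2) ∧ w 0 < w 3) ?_).congr fun _ _ => Iff.rfl
    refine DX.and ?_ (DX.o (DO.lt 0 3))
    exact ((hDXS en hen).1.ren fun n => if n = 0 then 0 else 2).congr fun _ _ => Iff.rfl

/-- If `L` is singular in HOD with the parameter `x`, and each bounded subset of `L` is in this
model, then a countable cofinal subset of `L` is in this model. -/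
theorem ctb (hODX : T_ODX.{u}) (hDXS : T_DXS.{u}) (hDXN : T_DXN.{u}) (hODY : T_ODY.{u})
    {en : Ordinal.{u} → ZFSet.{u}} (hen : EN en) {L : Cardinal.{u}}
    (hc : L.ord.cof = ℵ₀) {x : ZFSet.{u}} (hx : Bdx L x) :
    ∃ D, NF.ODp x D ∧ D ⊆ L.ord.toZFSet ∧
      (∀ m < L.ord, ∃ a : Ordinal.{u}, m < a ∧ a.toZFSet ∈ D) ∧
      ∃ s : ℕ → Ordinal.{u}, (∀ n, s n < L.ord ∧ (s n).toZFSet ∈ D) ∧
        (∀ m < L.ord, ∃ n, m < s n) ∧ ∀ a : Ordinal.{u}, a.toZFSet ∈ D → ∃ n, a = s n := by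
  obtain ⟨D, hD, hDL, hcf, τ, hτ, g, hg⟩ := hx.sg
  obtain ⟨c, hc1⟩ := (hODX en hen x L.ord).2.1 D hD
  set X : Set Ordinal.{u} := {b | b ∈ Sc en x c ∧ b < L.ord} with hX
  have hXD : ∀ b, b ∈ X ↔ b.toZFSet ∈ D := by
    intro b
    constructor
    · rintro ⟨h1, h2⟩
      exact (hc1 b h2).1 h1
    · intro h
      have hb : b < L.ord := toZFSet_mem_toZFSet_iff.1 (hDL h)
      exact ⟨(hc1 b hb).2 h, hb⟩
  have hfew : Few L.ord X := ⟨τ, hτ, g, fun b hb => hg b ((hXD b).1 hb)⟩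
  obtain ⟨ζ, hζ, -, hidx⟩ := enum hfew
  obtain ⟨m, hm1, hm2⟩ := Pool.Agent.H99.SD.cof_seq hc
  have h1 : ∀ n : ℕ, ∃ a i : Ordinal.{u}, m n < a ∧ a ∈ X ∧ i < ζ ∧ nth X i a := by
    intro n
    obtain ⟨a, ha1, ha2⟩ := hcf (m n) (hm1 n)
    have ha3 := (hXD a).2 ha2
    obtain ⟨i, hi, hn⟩ := hidx a ha3
    exact ⟨a, i, ha1, ha3, hi, hn⟩
  choose s i hs1 hs2 hs3 hs4 using h1
  -- the set of the indices
  have hsub : os ζ {k | ∃ n, k = i n} ⊆ ζ.toZFSet := by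
    intro z hz
    obtain ⟨a, ha, -, rfl⟩ := mem_os.1 hz
    exact toZFSet_mem_toZFSet_iff.2 ha
  obtain ⟨c', hc'⟩ := (hODX en hen x L.ord).2.1 (os ζ {k | ∃ n, k = i n}) (hx.bd ζ hζ _ hsub)
  have hu : ∀ k, (k < ζ ∧ k ∈ Sc en x c') ↔ ∃ n, k = i n := by
    intro k
    constructor
    · rintro ⟨h1, h2⟩
      obtain ⟨a, -, h3, h4⟩ := mem_os.1 ((hc' k (h1.trans hζ)).1 h2)
      rw [toZFSet_injective h4]
      exact h3
    · rintro ⟨n, rfl⟩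
      exact ⟨hs3 n, (hc' _ ((hs3 n).trans hζ)).2 (mem_os.2 ⟨_, hs3 n, ⟨n, rfl⟩, rfl⟩)⟩
  set w : ℕ → Ordinal.{u} := cns c' (cns c (cns L.ord (fun _ => ζ))) with hw
  have hP : ∀ b, PD en x (cns b w) ↔ ∃ n, b = s n := by
    intro b
    have h0 : PD en x (cns b w) ↔
      ∃ k, (k < ζ ∧ k ∈ Sc en x c') ∧ nth {b | b ∈ Sc en x c ∧ b < L.ord} k b := Iff.rfl
    rw [h0]
    constructor
    · rintro ⟨k, hk, hn⟩
      obtain ⟨n, rfl⟩ := (hu k).1 hk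
      exact ⟨n, nth_val hn (hs4 n)⟩
    · rintro ⟨n, rfl⟩
      exact ⟨i n, (hu _).2 ⟨n, rfl⟩, hs4 n⟩
  refine ⟨os L.ord {b | PD en x (cns b w)}, hODY _ (dx_PD hDXS hDXN hen) x L.ord w, ?_, ?_,
    s, fun n => ⟨(hs2 n).2, ?_⟩, fun k hk => ?_, fun a ha => ?_⟩
  · intro z hz
    obtain ⟨a, ha, -, rfl⟩ := mem_os.1 hz
    exact toZFSet_mem_toZFSet_iff.2 ha
  · intro k hk
    obtain ⟨n, hn⟩ := hm2 k hk
    exact ⟨s n, hn.trans (hs1 n), mem_os.2 ⟨_, (hs2 n).2, (hP _).2 ⟨n, rfl⟩, rfl⟩⟩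
  · exact mem_os.2 ⟨_, (hs2 n).2, (hP _).2 ⟨n, rfl⟩, rfl⟩
  · obtain ⟨n, hn⟩ := hm2 k hk
    exact ⟨n, hn.trans (hs1 n)⟩
  · obtain ⟨b, -, hb, h4⟩ := mem_os.1 ha
    rw [toZFSet_injective h4]
    exact (hP b).1 hb

end Pool.Agent.H29.SD
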