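import Pool.Agent.H98.SD.TargetsE
import Pool.Agent.H29.SD.BDXd
import Pool.Agent.H13.SD.BDX2

/-!
# BDE. An enumeration of the bounded subsets, and a countable cofinal subset
(MP_e37c09_lc, helper29; `bm_idx` is helper13's)
-/

open Ordinal Cardinal Order Set
open scoped ZFSet

universe u

namespace Pool.Agent.H29.SD.E

open _root_.HD _root_.HD.SD
open _root_.HD.NF (w0)
open Pool.Agent.H13.SD (Bm bm_lt)
open Pool.Agent.H29.SD (PD dx_PD)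

/-- each set of ordinals below `m` has a least code -/
theorem bm_idx (hodx : T_ODX.{u}) {en : Ordinal.{u} → ZFSet.{u}} (hen : EN en) {L : Cardinal.{u}}
    (lim : ∀ c < L, (2 : Cardinal.{u}) ^ c < L) {x : ZFSet.{u}} (hx : Bde L x) {m : Ordinal.{u}}
    (hm : m < L.ord) (s : Set Ordinal.{u}) (hs : ∀ b ∈ s, b < m) :
    ∃ i < L.ord, ∃ c, nth (Bm en L x m) i c ∧ ∀ b < L.ord, (b ∈ Sc en x c ↔ b ∈ s) := by
  have h1 : NF.ODp x (os m s) := hx.bd m hm _ fun z hz => by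
    unfold os at hz
    exact (ZFSet.mem_sep.1 hz).1
  obtain ⟨c1, hc1⟩ := (hodx en hen x L.ord).2.1 _ h1
  have hc1' : ∀ b < L.ord, (b ∈ Sc en x c1 ↔ b ∈ s) := by
    intro b hb
    rw [hc1 b hb]
    unfold os
    rw [ZFSet.mem_sep, rank_toZFSet, toZFSet_mem_toZFSet_iff]
    exact ⟨fun h => h.2, fun h => ⟨hs b h, h⟩⟩
  let A : Set Ordinal.{u} := {c | ∀ b < L.ord, (b ∈ Sc en x c ↔ b ∈ s)}
  have hA : A.Nonempty := ⟨c1, hc1'⟩
  have hmem : sInf A ∈ A := csInf_mem hA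
  have hB : sInf A ∈ Bm en L x m := by
    refine ⟨fun b hb hbL => hs b ((hmem b hbL).1 hb), fun c' hc' => ?_⟩
    by_contra hcon
    push Not at hcon
    have : c' ∈ A := fun b hb => (hcon b hb).trans (hmem b hb)
    exact absurd hc' (not_lt.2 (csInf_le' this))
  obtain ⟨i, -, hi⟩ := (HD.All.vh (Bm en L x m)).1 _ hB
  exact ⟨i, bm_lt lim hm hi, sInf A, hi, hmem⟩

/-- If `L` is singular in HOD with the parameter `x`, and each bounded subset of `L` is in this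
model, then a countable cofinal subset of `L` is in this model. -/
theorem ctbE (hODX : T_ODX.{u}) (hDXS : T_DXS.{u}) (hDXN : T_DXN.{u}) (hODY : T_ODY.{u})
    {en : Ordinal.{u} → ZFSet.{u}} (hen : EN en) {L : Cardinal.{u}}
    (hc : L.ord.cof = ℵ₀) {x : ZFSet.{u}} (hx : Bde L x) :
    ∃ D, NF.ODp x D ∧ D ⊆ L.ord.toZFSet ∧
      (∀ m < L.ord, ∃ a : Ordinal.{u}, m < a ∧ a.toZFSet ∈ D) ∧
      ∃ s : ℕ → Ordinal.{u}, (∀ n, s n < L.ord ∧ (s n).toZFSet ∈ D) ∧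
        (∀ m < L.ord, ∃ n, m < s n) ∧ ∀ a : Ordinal.{u}, a.toZFSet ∈ D → ∃ n, a = s n := by
  obtain ⟨D, hD, hDL, hcf, τ, hτ, g, hg⟩ := hx.sg
  obtain ⟨c, hc1⟩ := (hODX en hen x L.ord).2.1 D hD
  set X : Set Ordinal.{u} := {b | b ∈ Sc en x c ∧ b < L.ord} with hX
  have hXD : ∀ b, b ∈ X ↔ b.toZFSet ∈ D := by
    intro b
    constructor
    · rintro ⟨h1, h2⟩
      exact (hc1 b h2).1 h1
    · intro h
      have hb : b < L.ord := toZFSet_mem_toZFSet_iff.1 (hDL h)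
      exact ⟨(hc1 b hb).2 h, hb⟩
  have hfew : Few L.ord X := ⟨τ, hτ, g, fun b hb => hg b ((hXD b).1 hb)⟩
  obtain ⟨ζ, hζ, -, hidx⟩ := enum hfew
  obtain ⟨m, hm1, hm2⟩ := Pool.Agent.H99.SD.cof_seq hc
  have h1 : ∀ n : ℕ, ∃ a i : Ordinal.{u}, m n < a ∧ a ∈ X ∧ i < ζ ∧ nth X i a := by
    intro n
    obtain ⟨a, ha1, ha2⟩ := hcf (m n) (hm1 n)
    have ha3 := (hXD a).2 ha2
    obtain ⟨i, hi, hn⟩ := hidx a ha3
    exact ⟨a, i, ha1, ha3, hi, hn⟩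
  choose s i hs1 hs2 hs3 hs4 using h1
  -- the set of the indices
  have hsub : os ζ {k | ∃ n, k = i n} ⊆ ζ.toZFSet := by
    intro z hz
    obtain ⟨a, ha, -, rfl⟩ := mem_os.1 hz
    exact toZFSet_mem_toZFSet_iff.2 ha
  obtain ⟨c', hc'⟩ := (hODX en hen x L.ord).2.1 (os ζ {k | ∃ n, k = i n}) (hx.bd ζ hζ _ hsub)
  have hu : ∀ k, (k < ζ ∧ k ∈ Sc en x c') ↔ ∃ n, k = i n := by
    intro k
    constructor
    · rintro ⟨h1, h2⟩
      obtain ⟨a, -, h3, h4⟩ := mem_os.1 ((hc' k (h1.trans hζ)).1 h2)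
      rw [toZFSet_injective h4]
      exact h3
    · rintro ⟨n, rfl⟩
      exact ⟨hs3 n, (hc' _ ((hs3 n).trans hζ)).2 (mem_os.2 ⟨_, hs3 n, ⟨n, rfl⟩, rfl⟩)⟩
  set w : ℕ → Ordinal.{u} := cns c' (cns c (cns L.ord (fun _ => ζ))) with hw
  have hP : ∀ b, PD en x (cns b w) ↔ ∃ n, b = s n := by
    intro b
    have h0 : PD en x (cns b w) ↔
      ∃ k, (k < ζ ∧ k ∈ Sc en x c') ∧ nth {b | b ∈ Sc en x c ∧ b < L.ord} k b := Iff.rfl
    rw [h0]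
    constructor
    · rintro ⟨k, hk, hn⟩
      obtain ⟨n, rfl⟩ := (hu k).1 hk
      exact ⟨n, nth_val hn (hs4 n)⟩
    · rintro ⟨n, rfl⟩
      exact ⟨i n, (hu _).2 ⟨n, rfl⟩, hs4 n⟩
  refine ⟨os L.ord {b | PD en x (cns b w)}, hODY _ (dx_PD hDXS hDXN hen) x L.ord w, ?_, ?_,
    s, fun n => ⟨(hs2 n).2, ?_⟩, fun k hk => ?_, fun a ha => ?_⟩
  · intro z hz
    obtain ⟨a, ha, -, rfl⟩ := mem_os.1 hz
    exact toZFSet_mem_toZFSet_iff.2 ha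
  · intro k hk
    obtain ⟨n, hn⟩ := hm2 k hk
    exact ⟨s n, hn.trans (hs1 n), mem_os.2 ⟨_, (hs2 n).2, (hP _).2 ⟨n, rfl⟩, rfl⟩⟩
  · exact mem_os.2 ⟨_, (hs2 n).2, (hP _).2 ⟨n, rfl⟩, rfl⟩
  · obtain ⟨n, hn⟩ := hm2 k hk
    exact ⟨n, hn.trans (hs1 n)⟩
  · obtain ⟨b, -, hb, h4⟩ := mem_os.1 ha
    rw [toZFSet_injective h4]
    exact (hP b).1 hb

/-- the enumeration -/
def De (en : Ordinal.{u} → ZFSet.{u}) (t : Ordinal.{u} → Ordinal.{u} → Ordinal.{u})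
    (L : Cardinal.{u}) (x : ZFSet.{u}) (ξ : Ordinal.{u}) : Set Ordinal.{u} :=
  {a | ∃ c, ∃ i, ∃ m, ξ = t m i ∧ nth (Bm en L x m) i c ∧ a ∈ Sc en x c}

theorem dx_De (hDXS : T_DXS.{u}) (hDXN : T_DXN.{u}) {en : Ordinal.{u} → ZFSet.{u}}
    (hen : EN en) {t : Ordinal.{u} → Ordinal.{u} → Ordinal.{u}} (ht : PF t) (L : Cardinal.{u}) :
    DX fun x w => w 0 ∈ De en t L x (w 1) := by
  refine DX.ex (S := fun c x w => ∃ i, ∃ m, w 1 = t m i ∧ nth (Bm en L x m) i c ∧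
    w 0 ∈ Sc en x c) ?_
  refine DX.ex (S := fun i x w => ∃ m, w 2 = t m i ∧ nth (Bm en L x m) i (w 0) ∧
    w 1 ∈ Sc en x (w 0)) ?_
  refine DX.ex (S := fun m x w => w 3 = t m (w 0) ∧ nth (Bm en L x m) (w 0) (w 1) ∧
    w 2 ∈ Sc en x (w 1)) ?_
  refine DX.and ?_ (DX.and ?_ ?_)
  · exact DX.o (DO.s3 (X := fun a b c => c = t a b) ht.dz 0 1 4)
  · exact Pool.Agent.H13.SD.dx_nBm hDXS hDXN hen L 1 2 0
  · exact ((hDXS en hen).1.ren fun n => if n = 0 then 3 else 2).congr fun _ _ => Iff.rfl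

/-- BDE. -/
theorem pf_BDE (hODX : T_ODX.{u}) (hDXS : T_DXS.{u}) (hDXN : T_DXN.{u}) (hODY : T_ODY.{u}) :
    T_BDE.{u} := by
  classical
  intro en t L h hc x hx
  obtain ⟨D, hD, hDL, -, s, hs1, hs2, hs3⟩ := ctbE hODX hDXS hDXN hODY h.hen hc hx
  obtain ⟨d, hd⟩ := (hODX en h.hen x L.ord).2.1 D hD
  refine ⟨⟨De en t L, dx_De hDXS hDXN h.hen h.ht L, fun m hm s' => ?_⟩,
    fun x w => w 0 ∈ Sc en x (w 1) ∧ w 0 < w 2,
    (hDXS en h.hen).1.and (DX.o (DO.lt 0 2)), cns d (fun _ => L.ord), fun a ha => ha.2,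
    fun m hm => ?_, fun c => if hc : ∃ n : ℕ, c = n then s hc.choose else 0, fun a ha => ?_⟩
  · obtain ⟨i, hi, c, hn, hcs⟩ := bm_idx hODX h.hen h.lim hx hm {b | b < m ∧ b ∈ s'}
      (fun b hb => hb.1)
    refine ⟨t m i, h.ht.lt L h.unc.le m hm i hi, fun a ha => ?_⟩
    constructor
    · rintro ⟨c', k, m', h2, h4, h5⟩
      obtain ⟨rfl, rfl⟩ := h.ht.inj _ _ _ _ h2
      rw [nth_val h4 hn] at h5
      exact ((hcs a (ha.trans hm)).1 h5).2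
    · exact fun h2 => ⟨c, i, m, rfl, hn, (hcs a (ha.trans hm)).2 ⟨ha, h2⟩⟩
  · obtain ⟨n, hn⟩ := hs2 m hm
    exact ⟨s n, ⟨(hd _ (hs1 n).1).2 (hs1 n).2, (hs1 n).1⟩, hn⟩
  · obtain ⟨n, rfl⟩ := hs3 a ((hd a ha.2).1 ha.1)
    have hn : ∃ k : ℕ, (n : Ordinal.{u}) = k := ⟨n, rfl⟩
    refine ⟨n, ?_, ?_⟩
    · rw [_root_.HD.NF.w0, Cardinal.ord_aleph0]
      exact Ordinal.natCast_lt_omega0 n
    · refine (dif_pos hn).trans ?_
      have : hn.choose = n := by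
        have h2 := hn.choose_spec
        exact_mod_cast h2.symm
      rw [this]

end Pool.Agent.H29.SD.E
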