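import Pool.Agent.H98.SD.TargetsR
import Pool.Agent.H7.HD.All

/-!
# RE2. Extendible cardinals give simultaneous reflection (MP_e37c09_lc, helper29)
-/

open Ordinal Cardinal Order Set
open scoped ZFSet

universe u

namespace Pool.Agent.H29.SD

open _root_.HD _root_.HD.SD
open _root_.HD.NF (w0)

/-- An ordinal of uncountable cofinality below the successor of `L`, a cardinal of cofinality `ω`,
has cofinality less than `L`. -/
theorem cof_lt {L : Cardinal.{u}} (hL : ℵ₀ < L) (hc : L.ord.cof = ℵ₀) {β : Ordinal.{u}}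
    (hβ : β < (succ L).ord) : β.cof < L := by
  have h1 : β.card ≤ L := Order.lt_succ_iff.1 (Cardinal.lt_ord.1 hβ)
  have h2 : β.cof ≤ L := (Ordinal.cof_le_card β).trans h1
  rcases h2.lt_or_eq with h3 | h3
  · exact h3
  · exfalso
    have h4 : β.cof.ord.cof = β.cof := by simp
    rw [h3, hc] at h4
    rw [h4] at hL
    exact lt_irrefl _ hL

theorem omega_lt {δ : Ordinal.{u}} (hδ : Extendible δ) : (ω : Ordinal.{u}) < δ := by
  obtain ⟨η, -, θ, j, hj⟩ := All.xa δ hδ δ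
  obtain ⟨D, hD, -, -, hD0⟩ := All.xb δ η θ j hj
  rw [hD, ← Cardinal.ord_aleph0]
  exact Cardinal.ord_lt_ord.2 hD0

theorem unc {δ : Ordinal.{u}} (hδ : Extendible δ) {L : Cardinal.{u}} (hL : SLC δ L) :
    ℵ₀ < L := by
  have h := (omega_lt hδ).trans hL.lt
  rwa [Cardinal.lt_ord, Ordinal.card_omega0] at h

theorem slc_omega {δ : Ordinal.{u}} (hδ : Extendible δ) {L : Cardinal.{u}} (hL : SLC δ L) :
    SLC ω L := ⟨hL.lim, hL.cof, (omega_lt hδ).trans hL.lt⟩

theorem slc_unc {L : Cardinal.{u}} (hL : SLC ω L) : ℵ₀ < L := by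
  have h := hL.lt
  rwa [Cardinal.lt_ord, Ordinal.card_omega0] at h

/-- RE2. -/
theorem pf_RE2 (hREF : T_REF.{u}) : T_RE2.{u} := by
  intro δ hδ L hL X hX
  have hw0 : (w0 : Ordinal.{u}) = ω := Cardinal.ord_aleph0
  have hw : (w0 : Ordinal.{u}) < δ := by
    rw [hw0]
    exact omega_lt hδ
  obtain ⟨β, h1, h2, -, h3⟩ := hREF δ hδ (succ L) (Cardinal.isRegular_succ (unc hδ hL).le)
    (hL.lt.trans (Cardinal.ord_lt_ord.2 (Order.lt_succ L))) w0 hw X hX
  exact ⟨β, h1, h2, h3⟩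

end Pool.Agent.H29.SD
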