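import Pool.Agent.H98.SD.Targets
import Pool.Agent.H29.SD.BCK
import Pool.Agent.H75.PRK.COV

/-!
# REF. Simultaneous reflection (MP_e37c09_lc, helper29)
-/

open Ordinal Cardinal Order Set
open scoped ZFSet

universe u

namespace Pool.Agent.H29.SD

open _root_.HD _root_.HD.SD
open _root_.HD.NF (w0)
open Pool.Agent.H75.PRK (COV_Pr COV_loc)

/-- BCK. -/
theorem pf_BCK : T_BCK.{u} := by
  intro δ η θ j K γ ρ f hj hω hK hδK hKη hγη hf hp hρ1 hρ2 i hi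
  have hw0 : (w0 : Ordinal.{u}) = ω := Cardinal.ord_aleph0
  have hK0 : ℵ₀ < K := by
    have h : ω < K.ord := hω.trans hδK
    rwa [Cardinal.lt_ord, Ordinal.card_omega0] at h
  exact bck (M := ℵ₀) hj Cardinal.isRegular_aleph0 (by rw [Cardinal.ord_aleph0]; exact hω) hK hK0
    hKη hf hρ1 hρ2 (hi.trans hγη) (hp i hi)

/-- REF. -/
theorem pf_REF : T_REF.{u} := by
  intro δ hext K hK hδK τ hτ X hX
  have hw0 : (w0 : Ordinal.{u}) = ω := Cardinal.ord_aleph0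
  obtain ⟨η, hη, θ, j, hj⟩ := All.xa δ hext K.ord
  obtain ⟨D, hD, -, -, hD0⟩ := All.xb δ η θ j hj
  have hω : (ω : Ordinal.{u}) < δ := by
    rw [hD, ← Cardinal.ord_aleph0]
    exact Cardinal.ord_lt_ord.2 hD0
  have hKη : K.ord < η := hη
  have hK0 : ℵ₀ < K := by
    have h : ω < K.ord := hω.trans hδK
    rwa [Cardinal.lt_ord, Ordinal.card_omega0] at h
  have hωη : (ω : Ordinal.{u}) < η := hω.trans hj.dlt
  have hτη : τ < η := hτ.trans hj.dlt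
  set f : ZFSet.{u} := rs K.ord τ (fun b i => b ∈ X i) with hf
  have hfη : f ∈ V_ η := by
    refine mem_V_of_sub (y := ZFSet.prod K.ord.toZFSet τ.toZFSet) ?_
      (hj.gd.prod (Gd.ord.2 hKη) (Gd.ord.2 hτη))
    intro z hz
    rw [hf, rs, ZFSet.mem_sep] at hz
    exact hz.1
  -- the ordinal `ρ`
  obtain ⟨ρ, hρ1, hρ2⟩ : ∃ ρ : Ordinal.{u}, (∀ a < K.ord, Jo j a < ρ) ∧
      ∀ y < ρ, ∃ a < K.ord, y < Jo j a := by
    have hne : Jo j K.ord ∈ {r : Ordinal.{u} | ∀ a < K.ord, Jo j a < r} :=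
      fun a ha => J_lt hj ha hKη
    refine ⟨sInf {r : Ordinal.{u} | ∀ a < K.ord, Jo j a < r}, csInf_mem ⟨_, hne⟩, fun y hy => ?_⟩
    have h1 : y ∉ {r : Ordinal.{u} | ∀ a < K.ord, Jo j a < r} := notMem_of_lt_csInf' hy
    simp only [Set.mem_ofPred_eq, not_forall, not_lt] at h1
    obtain ⟨a, ha, h2⟩ := h1
    have hsa : succ a < K.ord := (Cardinal.isSuccLimit_ord hK.1).succ_lt ha
    exact ⟨succ a, hsa, h2.trans_lt (J_lt hj (lt_succ a) (hsa.trans hKη))⟩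
  have hρcof : ρ.cof = K := by
    rw [← H87.HD.XF.cof_eq (Jo j) (fun a b hab hb => J_lt hj hab (hb.trans hKη))
      hρ1 hρ2, hK.cof_ord]
  have hρK : ρ < Jo j K.ord := by
    obtain ⟨K', hK', hJK⟩ := All.xd δ η θ j hj K hK hKη
    have hle : ρ ≤ Jo j K.ord := by
      by_contra h
      push Not at h
      obtain ⟨a, ha, h1⟩ := hρ2 _ h
      exact absurd (J_lt hj ha hKη) (not_lt.2 h1.le)
    refine lt_of_le_of_ne hle fun h => ?_
    have h1 : K = K' := by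
      rw [← hρcof, h, hJK, hK'.cof_ord]
    have h2 : K.ord < Jo j K.ord := (hKη.trans hj.Jo_crit).trans (J_lt hj hδK hKη)
    rw [hJK, ← h1] at h2
    exact lt_irrefl _ h2
  have hmem : ∀ z ∈ [K.ord.toZFSet, δ.toZFSet, f, τ.toZFSet, (ω : Ordinal.{u}).toZFSet],
      z ∈ V_ η := by
    simp only [List.mem_cons, List.not_mem_nil, or_false, forall_eq_or_imp, forall_eq]
    exact ⟨Gd.ord.2 hKη, Gd.ord.2 hj.dlt, hfη, Gd.ord.2 hτη, Gd.ord.2 hωη⟩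
  have key := (hj.trl COV_loc _ hmem).2
  have h2 : COV_Pr (sv (List.map j
      [K.ord.toZFSet, δ.toZFSet, f, τ.toZFSet, (ω : Ordinal.{u}).toZFSet])) := by
    show ∃ b ∈ j K.ord.toZFSet, ∃ c ∈ j δ.toZFSet, j (ω : Ordinal.{u}).toZFSet ∈ c ∧
      (c.IsOrdinal ∧ b.IsOrdinal ∧ Cf c.rank b.rank) ∧
      ∀ i ∈ j τ.toZFSet, ((j (ω : Ordinal.{u}).toZFSet).IsOrdinal ∧ b.IsOrdinal ∧
        Pos (j (ω : Ordinal.{u}).toZFSet).rank b.rank {b' | ZFSet.pair b'.toZFSet i ∈ j f})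
    rw [hj.fix _ hω, hj.fix _ hτ, hj.ord hKη, hj.ord hj.dlt]
    refine ⟨ρ.toZFSet, toZFSet_mem_toZFSet_iff.2 hρK, K.ord.toZFSet,
      toZFSet_mem_toZFSet_iff.2 (hKη.trans hj.Jo_crit),
      toZFSet_mem_toZFSet_iff.2 (hω.trans hδK),
      ⟨ZFSet.isOrdinal_toZFSet _, ZFSet.isOrdinal_toZFSet _, ?_⟩, ?_⟩
    · rw [rank_toZFSet, rank_toZFSet]
      show ρ.cof.ord = K.ord
      rw [hρcof]
    · intro i hi
      refine ⟨ZFSet.isOrdinal_toZFSet _, ZFSet.isOrdinal_toZFSet _, ?_⟩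
      obtain ⟨a, ha, rfl⟩ := mem_toZFSet_iff.1 hi
      rw [rank_toZFSet, rank_toZFSet, ← Cardinal.ord_aleph0]
      have h3 : Pos w0 K.ord (fib f a) := by
        refine (Pos.congr fun b hb => ?_).2 (hX a ha)
        unfold fib
        rw [Set.mem_ofPred_eq, hf, pair_mem_rs]
        exact ⟨fun h => h.2.2, fun h => ⟨hb, ha, h⟩⟩
      have h4 := bck (M := ℵ₀) hj Cardinal.isRegular_aleph0
        (by rw [Cardinal.ord_aleph0]; exact hω) hK hK0 hKη hfη hρ1 hρ2 (ha.trans hτη) h3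
      rw [hj.Jo_fix (ha.trans hτ)] at h4
      exact h4
  have h3 := key h2
  change ∃ b ∈ K.ord.toZFSet, ∃ c ∈ δ.toZFSet, (ω : Ordinal.{u}).toZFSet ∈ c ∧
      (c.IsOrdinal ∧ b.IsOrdinal ∧ Cf c.rank b.rank) ∧
      ∀ i ∈ τ.toZFSet, ((ω : Ordinal.{u}).toZFSet.IsOrdinal ∧ b.IsOrdinal ∧
        Pos (ω : Ordinal.{u}).toZFSet.rank b.rank {b' | ZFSet.pair b'.toZFSet i ∈ f}) at h3
  obtain ⟨b, hb, c, hc, h4, ⟨-, -, h5⟩, h6⟩ := h3
  obtain ⟨β, hβ, rfl⟩ := mem_toZFSet_iff.1 hb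
  obtain ⟨γ, hγ, rfl⟩ := mem_toZFSet_iff.1 hc
  rw [rank_toZFSet, rank_toZFSet] at h5
  have h5' : β.cof.ord = γ := h5
  rw [toZFSet_mem_toZFSet_iff] at h4
  refine ⟨β, hβ, ?_, h5'.trans_lt hγ, fun a ha => ?_⟩
  · rw [← h5', ← Cardinal.ord_aleph0] at h4
    exact Cardinal.ord_lt_ord.1 h4
  · have h7 := (h6 a.toZFSet (toZFSet_mem_toZFSet_iff.2 ha)).2.2
    rw [rank_toZFSet, rank_toZFSet] at h7
    rw [hw0]
    refine h7.mono fun b' _ hb' _ => ?_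
    exact (pair_mem_rs.1 hb').2.2

end Pool.Agent.H29.SD
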