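import Pool.Agent.H98.SD.TargetsM
import Pool.Agent.H29.SD.BCK
import Pool.Agent.H29.SD.RE2
import Pool.Agent.H75.PRK.COV

/-!
# RFM. Simultaneous reflection, points of cofinality `μ` (MP_e37c09_lc, helper29)
-/

open Ordinal Cardinal Order Set
open scoped ZFSet

universe u

namespace Pool.Agent.H29.SD

open _root_.HD _root_.HD.SD
open _root_.HD.NF (w0)
open Pool.Agent.H75.PRK (COV_Pr COV_loc)

/-- Simultaneous reflection of sets which are stationary in the points of cofinality `M`. -/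
theorem refM (δ : Ordinal.{u}) (hext : Extendible δ) (K : Cardinal.{u}) (hK : K.IsRegular)
    (hδK : δ < K.ord) (M : Cardinal.{u}) (hM : M.IsRegular) (hMδ : M.ord < δ) (τ : Ordinal.{u})
    (hτ : τ < δ) (X : Ordinal.{u} → Set Ordinal.{u}) (hX : ∀ i < τ, Pos M.ord K.ord (X i)) :
    ∃ β < K.ord, M < β.cof ∧ β.cof.ord < δ ∧ ∀ i < τ, Pos M.ord β (X i) := by
  obtain ⟨η, hη, θ, j, hj⟩ := All.xa δ hext K.ord
  obtain ⟨D, hD, -, -, hD0⟩ := All.xb δ η θ j hj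
  have hω : (ω : Ordinal.{u}) < δ := by
    rw [hD, ← Cardinal.ord_aleph0]
    exact Cardinal.ord_lt_ord.2 hD0
  have hKη : K.ord < η := hη
  have hK0 : ℵ₀ < K := by
    have h : ω < K.ord := hω.trans hδK
    rwa [Cardinal.lt_ord, Ordinal.card_omega0] at h
  have hωη : M.ord < η := hMδ.trans hj.dlt
  have hτη : τ < η := hτ.trans hj.dlt
  set f : ZFSet.{u} := rs K.ord τ (fun b i => b ∈ X i) with hf
  have hfη : f ∈ V_ η := by
    refine mem_V_of_sub (y := ZFSet.prod K.ord.toZFSet τ.toZFSet) ?_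
      (hj.gd.prod (Gd.ord.2 hKη) (Gd.ord.2 hτη))
    intro z hz
    rw [hf, rs, ZFSet.mem_sep] at hz
    exact hz.1
  -- the ordinal `ρ`
  obtain ⟨ρ, hρ1, hρ2⟩ : ∃ ρ : Ordinal.{u}, (∀ a < K.ord, Jo j a < ρ) ∧
      ∀ y < ρ, ∃ a < K.ord, y < Jo j a := by
    have hne : Jo j K.ord ∈ {r : Ordinal.{u} | ∀ a < K.ord, Jo j a < r} :=
      fun a ha => J_lt hj ha hKη
    refine ⟨sInf {r : Ordinal.{u} | ∀ a < K.ord, Jo j a < r}, csInf_mem ⟨_, hne⟩, fun y hy => ?_⟩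
    have h1 : y ∉ {r : Ordinal.{u} | ∀ a < K.ord, Jo j a < r} := notMem_of_lt_csInf' hy
    simp only [Set.mem_ofPred_eq, not_forall, not_lt] at h1
    obtain ⟨a, ha, h2⟩ := h1
    have hsa : succ a < K.ord := (Cardinal.isSuccLimit_ord hK.1).succ_lt ha
    exact ⟨succ a, hsa, h2.trans_lt (J_lt hj (lt_succ a) (hsa.trans hKη))⟩
  have hρcof : ρ.cof = K := by
    rw [← H87.HD.XF.cof_eq (Jo j) (fun a b hab hb => J_lt hj hab (hb.trans hKη))
      hρ1 hρ2, hK.cof_ord]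
  have hρK : ρ < Jo j K.ord := by
    obtain ⟨K', hK', hJK⟩ := All.xd δ η θ j hj K hK hKη
    have hle : ρ ≤ Jo j K.ord := by
      by_contra h
      push Not at h
      obtain ⟨a, ha, h1⟩ := hρ2 _ h
      exact absurd (J_lt hj ha hKη) (not_lt.2 h1.le)
    refine lt_of_le_of_ne hle fun h => ?_
    have h1 : K = K' := by
      rw [← hρcof, h, hJK, hK'.cof_ord]
    have h2 : K.ord < Jo j K.ord := (hKη.trans hj.Jo_crit).trans (J_lt hj hδK hKη)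
    rw [hJK, ← h1] at h2
    exact lt_irrefl _ h2
  have hmem : ∀ z ∈ [K.ord.toZFSet, δ.toZFSet, f, τ.toZFSet, M.ord.toZFSet],
      z ∈ V_ η := by
    simp only [List.mem_cons, List.not_mem_nil, or_false, forall_eq_or_imp, forall_eq]
    exact ⟨Gd.ord.2 hKη, Gd.ord.2 hj.dlt, hfη, Gd.ord.2 hτη, Gd.ord.2 hωη⟩
  have key := (hj.trl COV_loc _ hmem).2
  have h2 : COV_Pr (sv (List.map j
      [K.ord.toZFSet, δ.toZFSet, f, τ.toZFSet, M.ord.toZFSet])) := by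
    show ∃ b ∈ j K.ord.toZFSet, ∃ c ∈ j δ.toZFSet, j M.ord.toZFSet ∈ c ∧
      (c.IsOrdinal ∧ b.IsOrdinal ∧ Cf c.rank b.rank) ∧
      ∀ i ∈ j τ.toZFSet, ((j M.ord.toZFSet).IsOrdinal ∧ b.IsOrdinal ∧
        Pos (j M.ord.toZFSet).rank b.rank {b' | ZFSet.pair b'.toZFSet i ∈ j f})
    rw [hj.fix _ hMδ, hj.fix _ hτ, hj.ord hKη, hj.ord hj.dlt]
    refine ⟨ρ.toZFSet, toZFSet_mem_toZFSet_iff.2 hρK, K.ord.toZFSet,
      toZFSet_mem_toZFSet_iff.2 (hKη.trans hj.Jo_crit),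
      toZFSet_mem_toZFSet_iff.2 (hMδ.trans hδK),
      ⟨ZFSet.isOrdinal_toZFSet _, ZFSet.isOrdinal_toZFSet _, ?_⟩, ?_⟩
    · rw [rank_toZFSet, rank_toZFSet]
      show ρ.cof.ord = K.ord
      rw [hρcof]
    · intro i hi
      refine ⟨ZFSet.isOrdinal_toZFSet _, ZFSet.isOrdinal_toZFSet _, ?_⟩
      obtain ⟨a, ha, rfl⟩ := mem_toZFSet_iff.1 hi
      rw [rank_toZFSet, rank_toZFSet]
      have h3 : Pos M.ord K.ord (fib f a) := by
        refine (Pos.congr fun b hb => ?_).2 (hX a ha)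
        unfold fib
        rw [Set.mem_ofPred_eq, hf, pair_mem_rs]
        exact ⟨fun h => h.2.2, fun h => ⟨hb, ha, h⟩⟩
      have h4 := bck (M := M) hj hM hMδ hK hK0 hKη hfη hρ1 hρ2 (ha.trans hτη) h3
      rw [hj.Jo_fix (ha.trans hτ)] at h4
      exact h4
  have h3 := key h2
  change ∃ b ∈ K.ord.toZFSet, ∃ c ∈ δ.toZFSet, M.ord.toZFSet ∈ c ∧
      (c.IsOrdinal ∧ b.IsOrdinal ∧ Cf c.rank b.rank) ∧
      ∀ i ∈ τ.toZFSet, (M.ord.toZFSet.IsOrdinal ∧ b.IsOrdinal ∧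
        Pos M.ord.toZFSet.rank b.rank {b' | ZFSet.pair b'.toZFSet i ∈ f}) at h3
  obtain ⟨b, hb, c, hc, h4, ⟨-, -, h5⟩, h6⟩ := h3
  obtain ⟨β, hβ, rfl⟩ := mem_toZFSet_iff.1 hb
  obtain ⟨γ, hγ, rfl⟩ := mem_toZFSet_iff.1 hc
  rw [rank_toZFSet, rank_toZFSet] at h5
  have h5' : β.cof.ord = γ := h5
  rw [toZFSet_mem_toZFSet_iff] at h4
  refine ⟨β, hβ, ?_, h5'.trans_lt hγ, fun a ha => ?_⟩
  · rw [← h5'] at h4
    exact Cardinal.ord_lt_ord.1 h4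
  · have h7 := (h6 a.toZFSet (toZFSet_mem_toZFSet_iff.2 ha)).2.2
    rw [rank_toZFSet, rank_toZFSet] at h7
    refine h7.mono fun b' _ hb' _ => ?_
    exact (pair_mem_rs.1 hb').2.2

/-- RFM. -/
theorem pf_RFM : T_RFM.{u} := by
  intro δ hδ L hL M hM hMδ X hX
  have hw0 : (w0 : Ordinal.{u}) = ω := Cardinal.ord_aleph0
  have hw : (w0 : Ordinal.{u}) < δ := by
    rw [hw0]
    exact omega_lt hδ
  obtain ⟨β, h1, h2, -, h3⟩ := refM δ hδ (succ L) (Cardinal.isRegular_succ (unc hδ hL).le)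
    (hL.lt.trans (Cardinal.ord_lt_ord.2 (Order.lt_succ L))) M hM hMδ w0 hw X hX
  exact ⟨β, h1, hM.1.trans_lt h2, h3⟩

/-- A regular cardinal less than `δ` is less than `L`. -/
theorem reg_lt {δ : Ordinal.{u}} {L M : Cardinal.{u}} (hL : SLC δ L) (hM : M.ord < δ) : M < L :=
  Cardinal.ord_lt_ord.1 (hM.trans hL.lt)

end Pool.Agent.H29.SD
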