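import Pool.Agent.H98.SD.TargetsK
import Pool.Agent.H29.SD.RFM

/-!
# RFK. Simultaneous reflection at all regular `K > L` (MP_e37c09_lc, helper29)
-/

open Ordinal Cardinal Order Set
open scoped ZFSet

universe u

namespace Pool.Agent.H29.SD

open _root_.HD _root_.HD.SD
open _root_.HD.NF (w0)

/-- RFK. -/
theorem pf_RFK : T_RFK.{u} := by
  intro δ hδ L hL M hM hMδ K hK hLK X hX
  have hw0 : (w0 : Ordinal.{u}) = ω := Cardinal.ord_aleph0
  have hw : (w0 : Ordinal.{u}) < δ := by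
    rw [hw0]
    exact omega_lt hδ
  obtain ⟨β, h1, h2, h3, h4⟩ := refM δ hδ K hK
    (hL.lt.trans (Cardinal.ord_lt_ord.2 hLK)) M hM hMδ w0 hw X hX
  exact ⟨β, h1, hM.1.trans_lt h2, Cardinal.ord_lt_ord.1 (h3.trans hL.lt), h4⟩

/-- The second clause of MAIN8: for the successor of `L` the bound for the cofinality is
automatic. -/
theorem rflK_succ (L : Cardinal.{u}) (hL : SLC ω L) (μ : Ordinal.{u}) (h : RflM μ L) :
    RflK μ (succ L) L := by
  intro X hX
  obtain ⟨β, h1, h2, h3⟩ := h X hX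
  exact ⟨β, h1, h2, cof_lt (slc_unc hL) hL.cof h1, h3⟩

end Pool.Agent.H29.SD
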